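import Pool.Agent.H92.RK.Targets

set_option autoImplicit false

/-!
# Row N3: the radial inequality for complex functions
-/

open MeasureTheory Set
open Pool.Agent.H92.RK

namespace Pool.Agent.H91.RK

/-- N3: radial inequality for complex functions on `[0, r₂]` -/
theorem pf_N3 (hN1 : T_N1) (hN2 : T_N2) : T_N3 := by
  intro b b' hb h1 h2
  have hbc : Continuous b := continuous_iff_continuousAt.2 fun x => (hb.1 x).continuousAt
  have hre : C1 (fun x => (b x).re) (fun x => (b' x).re) :=
    ⟨fun x => (Complex.reCLM.hasFDerivAt.comp_hasDerivAt x (hb.1 x)),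
      Complex.continuous_re.comp hb.2⟩
  have him : C1 (fun x => (b x).im) (fun x => (b' x).im) :=
    ⟨fun x => (Complex.imCLM.hasFDerivAt.comp_hasDerivAt x (hb.1 x)),
      Complex.continuous_im.comp hb.2⟩
  have r1 := hN1 _ _ hre (by simp [h1])
  have r2 := hN2 _ _ hre (by simp [h1]) (by simp [h2])
  have i1 := hN1 _ _ him (by simp [h1])
  have i2 := hN2 _ _ him (by simp [h1]) (by simp [h2])
  have key : ∀ (f : ℝ → ℂ), Continuous f →
      ∫ r in (0 : ℝ)..r₂, ‖f r‖ ^ 2 * r =
        ((∫ r in (0 : ℝ)..r₁, (f r).re ^ 2 * r) + ∫ r in r₁..r₂, (f r).re ^ 2 * r) +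
        ((∫ r in (0 : ℝ)..r₁, (f r).im ^ 2 * r) + ∫ r in r₁..r₂, (f r).im ^ 2 * r) := by
    intro f hf
    have c1 : Continuous fun r => (f r).re ^ 2 * r :=
      ((Complex.continuous_re.comp hf).pow 2).mul continuous_id
    have c2 : Continuous fun r => (f r).im ^ 2 * r :=
      ((Complex.continuous_im.comp hf).pow 2).mul continuous_id
    rw [intervalIntegral.integral_add_adjacent_intervals (c1.intervalIntegrable _ _)
      (c1.intervalIntegrable _ _), intervalIntegral.integral_add_adjacent_intervals
      (c2.intervalIntegrable _ _) (c2.intervalIntegrable _ _),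
      ← intervalIntegral.integral_add (c1.intervalIntegrable _ _) (c2.intervalIntegrable _ _)]
    congr 1
    funext r
    rw [← Complex.normSq_eq_norm_sq, Complex.normSq_apply]
    ring
  rw [key b hbc, key b' hb.2]
  linarith

end Pool.Agent.H91.RK
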